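import Mathlib
import Pool.Agent.Helper71.SDX.Defs

/-!
# Row D of project MP_b6562f_SDX: the Chebyshev polynomial
-/

set_option autoImplicit false

open scoped BigOperators Matrix

namespace SDX

namespace h35

theorem T_ge (K : ℕ) (δ x : ℝ) (hδ : 0 ≤ δ) (hδ1 : δ ≤ 1) (hx : 1 + δ ≤ x) :
    Real.exp (K * Real.sqrt δ) / 4 ≤ ((Polynomial.Chebyshev.T ℝ K).eval x) ^ 2 := by
  have hx1 : 1 ≤ x := by linarith
  set u := Real.arcosh x with hu
  have hux : Real.cosh u = x := Real.cosh_arcosh hx1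
  have hT : (Polynomial.Chebyshev.T ℝ K).eval x = Real.cosh (K * u) := by
    rw [← hux]
    have := Polynomial.Chebyshev.T_real_cosh u (K : ℤ)
    rw [this]
    simp
  have h1 : Real.exp (K * u) / 2 ≤ Real.cosh (K * u) := by
    rw [Real.cosh_eq]
    have := Real.exp_pos (-(K * u))
    linarith
  have hs0 : 0 ≤ Real.sqrt δ := Real.sqrt_nonneg δ
  have hs1 : Real.sqrt δ ≤ 1 := by
    rw [Real.sqrt_le_one]
    exact hδ1
  have h2 : Real.sqrt δ / 2 ≤ u := by
    rw [← Real.exp_le_exp, hu, Real.exp_arcosh hx1]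
    have h3 : Real.sqrt δ ≤ Real.sqrt (x ^ 2 - 1) := by
      apply Real.sqrt_le_sqrt
      nlinarith
    have h4 : Real.exp (Real.sqrt δ / 2) * (1 - Real.sqrt δ / 2) ≤ 1 := by
      have h5 := Real.one_sub_le_exp_neg (Real.sqrt δ / 2)
      calc Real.exp (Real.sqrt δ / 2) * (1 - Real.sqrt δ / 2)
          ≤ Real.exp (Real.sqrt δ / 2) * Real.exp (-(Real.sqrt δ / 2)) :=
            mul_le_mul_of_nonneg_left h5 (Real.exp_pos _).le
        _ = 1 := by rw [← Real.exp_add]; simp
    have h6 : 1 ≤ (1 + Real.sqrt δ) * (1 - Real.sqrt δ / 2) := by nlinarith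
    have h7 : Real.exp (Real.sqrt δ / 2) ≤ 1 + Real.sqrt δ := by
      by_contra hcon
      push Not at hcon
      have : (1 + Real.sqrt δ) * (1 - Real.sqrt δ / 2)
          < Real.exp (Real.sqrt δ / 2) * (1 - Real.sqrt δ / 2) :=
        mul_lt_mul_of_pos_right hcon (by linarith)
      linarith
    linarith
  have hK : (0 : ℝ) ≤ K := Nat.cast_nonneg K
  rw [hT]
  calc Real.exp (K * Real.sqrt δ) / 4 ≤ Real.exp (K * u + K * u) / 4 := by
        have : (K : ℝ) * Real.sqrt δ ≤ K * u + K * u := by nlinarith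
        have := Real.exp_le_exp.mpr this
        linarith
    _ = (Real.exp (K * u) / 2) ^ 2 := by rw [Real.exp_add]; ring
    _ ≤ (Real.cosh (K * u)) ^ 2 := by
        apply pow_le_pow_left₀ _ h1
        have := Real.exp_pos (K * u)
        linarith

end h35

theorem cheb (K : ℕ) (κ θ : ℝ) (hθ : 0 < θ) (hκ : θ ≤ κ) :
    ∃ h : Polynomial ℝ, h.natDegree ≤ K ∧
      (∀ l, -κ ≤ l → l ≤ θ → h.eval l ^ 2 ≤ 1) ∧
      ∀ l, 2 * θ ≤ l → Real.exp (K * Real.sqrt (θ / κ)) / 4 ≤ h.eval l ^ 2 := by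
  have hκ0 : 0 < κ := lt_of_lt_of_le hθ hκ
  have hs : 0 < κ + θ := by linarith
  set q : Polynomial ℝ := Polynomial.C (2 / (κ + θ)) * Polynomial.X
    + Polynomial.C ((κ - θ) / (κ + θ)) with hq
  have hqe : ∀ l : ℝ, q.eval l = (2 * l + κ - θ) / (κ + θ) := by
    intro l
    simp only [hq, Polynomial.eval_add, Polynomial.eval_mul, Polynomial.eval_C, Polynomial.eval_X]
    field_simp
    ring
  refine ⟨(Polynomial.Chebyshev.T ℝ K).comp q, ?_, ?_, ?_⟩
  · refine le_trans Polynomial.natDegree_comp_le ?_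
    have h1 : q.natDegree ≤ 1 := by
      rw [hq]
      exact Polynomial.natDegree_linear_le
    have h2 : (Polynomial.Chebyshev.T ℝ K).natDegree = K := by
      rw [Polynomial.Chebyshev.natDegree_T]
      simp
    rw [h2]
    calc K * q.natDegree ≤ K * 1 := Nat.mul_le_mul_left K h1
      _ = K := mul_one K
  · intro l hl1 hl2
    rw [Polynomial.eval_comp, hqe, sq_le_one_iff_abs_le_one]
    apply Polynomial.Chebyshev.abs_eval_T_real_le_one
    rw [abs_le]
    constructor
    · rw [le_div_iff₀ hs]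
      linarith
    · rw [div_le_one hs]
      linarith
  · intro l hl
    rw [Polynomial.eval_comp, hqe]
    apply h35.T_ge K (θ / κ) _ (by positivity) ((div_le_one hκ0).mpr hκ)
    rw [le_div_iff₀ hs]
    have h1 : θ / κ * (κ + θ) ≤ 2 * θ := by
      rw [div_mul_eq_mul_div, div_le_iff₀ hκ0]
      nlinarith
    nlinarith

end SDX
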